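import Pool.Agent.Y951.SQ.Stm

/-!
# SQ-KLEIN: induced characters from the two Klein four subgroups of a dihedral quotient
-/

set_option autoImplicit false

namespace Pool.Agent.Y38.SQ

open Pool.Agent.Y144.DL Pool.Agent.Y691.ST Pool.Agent.Y951.SE Pool.Agent.Y951.SQ

section

variable {Q : Type} [Group Q] {K : Subgroup Q} (η : K →* ℂˣ) (l : kerS K η →* ℂˣ) (t : K)

open Classical in
/-- the character `l`, extended by one -/
noncomputable def Lu (w : K) : ℂˣ := if h : η w = 1 then l ⟨w, mem_kerS.2 ⟨w.2, h⟩⟩ else 1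

open Classical in
/-- the entry in the first column -/
noncomputable def aa (w : K) : ℂˣ := if η w = 1 then Lu η l w else Lu η l (t⁻¹ * w)

open Classical in
/-- the entry in the second column -/
noncomputable def bb (w : K) : ℂˣ := if η w = 1 then Lu η l (t⁻¹ * w * t) else Lu η l (w * t)

variable {η l t}

theorem Lu_of {w : K} (h : η w = 1) : Lu η l w = l ⟨w, mem_kerS.2 ⟨w.2, h⟩⟩ := by
  unfold Lu
  rw [dif_pos h]

theorem Lu_mul {x y : K} (hx : η x = 1) (hy : η y = 1) :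
    Lu η l (x * y) = Lu η l x * Lu η l y := by
  have hxy : η (x * y) = 1 := by rw [map_mul, hx, hy, one_mul]
  rw [Lu_of hx, Lu_of hy, Lu_of hxy, ← map_mul]
  rfl

theorem sq_one {x : kerS K η} (hl : l ^ 2 = 1) : l x * l x = 1 := by
  have := congrArg (fun f : kerS K η →* ℂˣ => f x) hl
  rw [← pow_two]
  exact this

theorem Lu_sq (hl : l ^ 2 = 1) (x : K) : Lu η l x * Lu η l x = 1 := by
  by_cases h : η x = 1
  · rw [Lu_of h]
    exact sq_one hl
  · unfold Lu
    rw [dif_neg h, one_mul]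

theorem Lu_inv (hl : l ^ 2 = 1) {x : K} (hx : η x = 1) : Lu η l x⁻¹ = Lu η l x := by
  have hx' : η x⁻¹ = 1 := by rw [map_inv, hx, inv_one]
  have h1 : Lu η l x⁻¹ * Lu η l x = 1 := by
    rw [← Lu_mul hx' hx, inv_mul_cancel, Lu_of (map_one η)]
    exact map_one l
  have h2 := Lu_sq hl x
  exact mul_right_cancel (h1.trans h2.symm)

theorem aa_sq (hl : l ^ 2 = 1) (x : K) : aa η l t x * aa η l t x = 1 := by
  unfold aa
  split_ifs <;> exact Lu_sq hl _

theorem bb_sq (hl : l ^ 2 = 1) (x : K) : bb η l t x * bb η l t x = 1 := by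
  unfold bb
  split_ifs <;> exact Lu_sq hl _

theorem aa_pos {x : K} (h : η x = 1) : aa η l t x = Lu η l x := by
  unfold aa
  rw [if_pos h]

theorem aa_neg {x : K} (h : η x = -1) : aa η l t x = Lu η l (t⁻¹ * x) := by
  unfold aa
  rw [if_neg (by rw [h]; exact neg_one_ne)]

theorem bb_pos {x : K} (h : η x = 1) : bb η l t x = Lu η l (t⁻¹ * x * t) := by
  unfold bb
  rw [if_pos h]

theorem bb_neg {x : K} (h : η x = -1) : bb η l t x = Lu η l (x * t) := by
  unfold bb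
  rw [if_neg (by rw [h]; exact neg_one_ne)]

/-- multiplication by `y` with `η y = 1` -/
theorem mul_pos' (ht : η t = -1) (hη : ∀ x, η x = 1 ∨ η x = -1) {x y : K} (hy : η y = 1) :
    aa η l t (x * y) = aa η l t y * aa η l t x ∧ bb η l t (x * y) = bb η l t y * bb η l t x := by
  rcases hη x with hx | hx
  · have hxy : η (x * y) = 1 := by rw [map_mul, hx, hy, one_mul]
    have h1 : η (t⁻¹ * x * t) = 1 := by
      rw [map_mul, map_mul, map_inv, hx, ht]; simp
    have h2 : η (t⁻¹ * y * t) = 1 := by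
      rw [map_mul, map_mul, map_inv, hy, ht]; simp
    rw [aa_pos hxy, aa_pos hx, aa_pos hy, bb_pos hxy, bb_pos hx, bb_pos hy, Lu_mul hx hy,
      show t⁻¹ * (x * y) * t = (t⁻¹ * x * t) * (t⁻¹ * y * t) by group, Lu_mul h1 h2]
    exact ⟨mul_comm _ _, mul_comm _ _⟩
  · have hxy : η (x * y) = -1 := by rw [map_mul, hx, hy, mul_one]
    have h1 : η (t⁻¹ * x) = 1 := by rw [map_mul, map_inv, hx, ht]; simp
    have h3 : η (x * t) = 1 := by rw [map_mul, hx, ht]; simp
    have h2 : η (t⁻¹ * y * t) = 1 := by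
      rw [map_mul, map_mul, map_inv, hy, ht]; simp
    rw [aa_neg hxy, aa_neg hx, aa_pos hy, bb_neg hxy, bb_neg hx, bb_pos hy,
      show t⁻¹ * (x * y) = (t⁻¹ * x) * y by group, Lu_mul h1 hy,
      show (x * y) * t = (x * t) * (t⁻¹ * y * t) by group, Lu_mul h3 h2]
    exact ⟨mul_comm _ _, mul_comm _ _⟩

/-- multiplication by `y` with `η y = -1` -/
theorem mul_neg' (ht : η t = -1) (hη : ∀ x, η x = 1 ∨ η x = -1) {x y : K} (hy : η y = -1) :
    aa η l t (x * y) = aa η l t y * bb η l t x ∧ bb η l t (x * y) = bb η l t y * aa η l t x := by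
  have h1 : η (t⁻¹ * y) = 1 := by rw [map_mul, map_inv, hy, ht]; simp
  have h2 : η (y * t) = 1 := by rw [map_mul, hy, ht]; simp
  rcases hη x with hx | hx
  · have hxy : η (x * y) = -1 := by rw [map_mul, hx, hy, one_mul]
    have h3 : η (t⁻¹ * x * t) = 1 := by
      rw [map_mul, map_mul, map_inv, hx, ht]; simp
    rw [aa_neg hxy, aa_neg hy, aa_pos hx, bb_neg hxy, bb_neg hy, bb_pos hx,
      show t⁻¹ * (x * y) = (t⁻¹ * x * t) * (t⁻¹ * y) by group, Lu_mul h3 h1,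
      show (x * y) * t = x * (y * t) by group, Lu_mul hx h2]
    exact ⟨mul_comm _ _, mul_comm _ _⟩
  · have hxy : η (x * y) = 1 := by rw [map_mul, hx, hy]; simp
    have h3 : η (t⁻¹ * x) = 1 := by rw [map_mul, map_inv, hx, ht]; simp
    have h4 : η (x * t) = 1 := by rw [map_mul, hx, ht]; simp
    rw [aa_pos hxy, aa_neg hy, aa_neg hx, bb_pos hxy, bb_neg hy, bb_neg hx,
      show x * y = (x * t) * (t⁻¹ * y) by group, Lu_mul h4 h1,
      show t⁻¹ * (x * t * (t⁻¹ * y)) * t = (t⁻¹ * x) * (y * t) by group, Lu_mul h3 h2]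
    exact ⟨mul_comm _ _, mul_comm _ _⟩

/-- the determinant up to sign -/
noncomputable def mu (ht : η t = -1) (hη : ∀ x, η x = 1 ∨ η x = -1) : K →* ℂˣ where
  toFun x := aa η l t x * bb η l t x
  map_one' := by
    rw [aa_pos (map_one η), bb_pos (map_one η), mul_one, inv_mul_cancel, Lu_of (map_one η)]
    have : l ⟨((1 : K) : Q), mem_kerS.2 ⟨(1 : K).2, map_one η⟩⟩ = 1 := map_one l
    rw [this, one_mul]
  map_mul' x y := by
    rcases hη y with hy | hy
    · obtain ⟨h1, h2⟩ := mul_pos' (l := l) ht hη (x := x) hy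
      rw [h1, h2]
      ac_rfl
    · obtain ⟨h1, h2⟩ := mul_neg' (l := l) ht hη (x := x) hy
      rw [h1, h2]
      ac_rfl

theorem mu_apply (ht : η t = -1) (hη : ∀ x, η x = 1 ∨ η x = -1) (x : K) :
    mu (l := l) ht hη x = aa η l t x * bb η l t x := rfl

theorem aa_eq_bb (hl : l ^ 2 = 1) (ht : η t = -1) (hη : ∀ x, η x = 1 ∨ η x = -1) {x : K}
    (h : mu (l := l) ht hη x = 1) : bb η l t x = aa η l t x := by
  rw [mu_apply] at h
  exact mul_left_cancel (h.trans (aa_sq hl x).symm)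

/-- multiplicativity of the first entry on the kernel of `mu` -/
theorem aa_mul (hl : l ^ 2 = 1) (ht : η t = -1) (hη : ∀ x, η x = 1 ∨ η x = -1) {x y : K}
    (h : mu (l := l) ht hη x = 1) : aa η l t (x * y) = aa η l t x * aa η l t y := by
  rcases hη y with hy | hy
  · rw [(mul_pos' (l := l) ht hη (x := x) hy).1, mul_comm]
  · rw [(mul_neg' (l := l) ht hη (x := x) hy).1, aa_eq_bb hl ht hη h, mul_comm]

theorem aa_one : aa η l t 1 = 1 := by
  rw [aa_pos (map_one η), Lu_of (map_one η)]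
  exact map_one l

/-- the second character -/
noncomputable def l2 (hl : l ^ 2 = 1) (ht : η t = -1) (hη : ∀ x, η x = 1 ∨ η x = -1) :
    kerS K (mu (l := l) ht hη) →* ℂˣ where
  toFun x := aa η l t ⟨x, (mem_kerS.1 x.2).1⟩
  map_one' := aa_one
  map_mul' x y := aa_mul hl ht hη (x := ⟨x, (mem_kerS.1 x.2).1⟩)
    (y := ⟨y, (mem_kerS.1 y.2).1⟩) (mem_kerS.1 x.2).2

/-- conjugation by an element of the kernel of `η` -/
theorem conj_s (hl : l ^ 2 = 1) (ht : η t = -1) (hη : ∀ x, η x = 1 ∨ η x = -1) {s x : K}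
    (hs : η s = 1) (hs2 : mu (l := l) ht hη s = -1) (hx : η x = -1) :
    aa η l t (s⁻¹ * x * s) = -aa η l t x := by
  have h1 : η (s⁻¹ * x * s) = -1 := by rw [map_mul, map_mul, map_inv, hs, hx]; simp
  have h2 : η (t⁻¹ * s * t) = 1 := by rw [map_mul, map_mul, map_inv, hs, ht]; simp
  have h2' : η (t⁻¹ * s * t)⁻¹ = 1 := by rw [map_inv, h2, inv_one]
  have h3 : η (t⁻¹ * x) = 1 := by rw [map_mul, map_inv, hx, ht]; simp
  have h4 : η ((t⁻¹ * x) * s) = 1 := by rw [map_mul, h3, hs, one_mul]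
  rw [aa_neg h1, aa_neg hx,
    show t⁻¹ * (s⁻¹ * x * s) = (t⁻¹ * s * t)⁻¹ * ((t⁻¹ * x) * s) by group, Lu_mul h2' h4,
    Lu_mul h3 hs, Lu_inv hl h2]
  rw [mu_apply, aa_pos hs, bb_pos hs] at hs2
  calc Lu η l (t⁻¹ * s * t) * (Lu η l (t⁻¹ * x) * Lu η l s)
      = (Lu η l s * Lu η l (t⁻¹ * s * t)) * Lu η l (t⁻¹ * x) := by ac_rfl
    _ = -Lu η l (t⁻¹ * x) := by rw [hs2]; simp

theorem conj_s_pos (hl : l ^ 2 = 1) {s x : K} (hs : η s = 1) (hx : η x = 1) :
    aa η l t (s⁻¹ * x * s) = aa η l t x := by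
  have hs' : η s⁻¹ = 1 := by rw [map_inv, hs, inv_one]
  have h1 : η (s⁻¹ * x) = 1 := by rw [map_mul, hs', hx, one_mul]
  have h2 : η (s⁻¹ * x * s) = 1 := by rw [map_mul, h1, hs, one_mul]
  rw [aa_pos h2, aa_pos hx, Lu_mul h1 hs, Lu_mul hs' hx, Lu_inv hl hs]
  calc Lu η l s * Lu η l x * Lu η l s = (Lu η l s * Lu η l s) * Lu η l x := by ac_rfl
    _ = Lu η l x := by rw [Lu_sq hl, one_mul]

/-- the values of the first character -/
theorem ext1 (χ : K →* ℂˣ) (x : K) (hx : η x = 1) :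
    ext (kerS K η) (resS K η χ * l) (x : Q) = (χ x : ℂ) * (aa η l t x : ℂ) := by
  rw [ext_mem _ _ (mem_kerS.2 ⟨x.2, hx⟩), aa_pos hx, Lu_of hx, MonoidHom.mul_apply, Units.val_mul]
  rfl

theorem ext1' (χ : K →* ℂˣ) (x : K) (hx : η x = -1) :
    ext (kerS K η) (resS K η χ * l) (x : Q) = 0 := by
  apply ext_not_mem
  intro h
  obtain ⟨h1, h2⟩ := mem_kerS.1 h
  have h3 : η x = 1 := h2
  rw [hx] at h3
  exact neg_one_ne h3

theorem ext1'' (χ : K →* ℂˣ) (y : Q) (hy : y ∉ K) :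
    ext (kerS K η) (resS K η χ * l) y = 0 := by
  apply ext_not_mem
  intro h
  exact hy (kerS_le _ _ h)

theorem ext2 (hl : l ^ 2 = 1) (ht : η t = -1) (hη : ∀ x, η x = 1 ∨ η x = -1) (χ : K →* ℂˣ) (x : K)
    (hx : mu (l := l) ht hη x = 1) :
    ext (kerS K (mu (l := l) ht hη)) (resS K _ χ * l2 hl ht hη) (x : Q) =
      (χ x : ℂ) * (aa η l t x : ℂ) := by
  rw [ext_mem _ _ (mem_kerS.2 ⟨x.2, hx⟩), MonoidHom.mul_apply, Units.val_mul]
  rfl

theorem mu_cases (hl : l ^ 2 = 1) (ht : η t = -1) (hη : ∀ x, η x = 1 ∨ η x = -1) (x : K) :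
    mu (l := l) ht hη x = 1 ∨ mu (l := l) ht hη x = -1 := by
  apply unit_cases
  rw [pow_two, mu_apply, mul_mul_mul_comm, aa_sq hl, bb_sq hl, one_mul]

/-- the pointwise identity -/
theorem point (hl : l ^ 2 = 1) (ht : η t = -1) (hη : ∀ x, η x = 1 ∨ η x = -1) {s : K}
    (hs : η s = 1) (hs2 : mu (l := l) ht hη s = -1) (χ : K →* ℂˣ) (y : Q) :
    ext (kerS K η) (resS K η χ * l) y +
      ext (kerS K η) (resS K η χ * l) ((t : Q)⁻¹ * y * t) =
    ext (kerS K (mu (l := l) ht hη)) (resS K _ χ * l2 hl ht hη) y +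
      ext (kerS K (mu (l := l) ht hη)) (resS K _ χ * l2 hl ht hη) ((s : Q)⁻¹ * y * s) := by
  by_cases hy : y ∈ K
  · obtain ⟨x, rfl⟩ : ∃ x : K, (x : Q) = y := ⟨⟨y, hy⟩, rfl⟩
    have e1 : (t : Q)⁻¹ * x * t = ((t⁻¹ * x * t : K) : Q) := rfl
    have e2 : (s : Q)⁻¹ * x * s = ((s⁻¹ * x * s : K) : Q) := rfl
    rw [e1, e2]
    have hχt : χ (t⁻¹ * x * t) = χ x := by
      rw [map_mul, map_mul, map_inv, mul_comm, mul_inv_cancel_left]
    have hχs : χ (s⁻¹ * x * s) = χ x := by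
      rw [map_mul, map_mul, map_inv, mul_comm, mul_inv_cancel_left]
    have hηt : η (t⁻¹ * x * t) = η x := by
      rw [map_mul, map_mul, map_inv, mul_comm, mul_inv_cancel_left]
    have hμs : mu (l := l) ht hη (s⁻¹ * x * s) = mu (l := l) ht hη x := by
      rw [map_mul, map_mul, map_inv, mul_comm, mul_inv_cancel_left]
    have hμn : ∀ z : K, mu (l := l) ht hη z = -1 →
        ext (kerS K (mu (l := l) ht hη)) (resS K _ χ * l2 hl ht hη) (z : Q) = 0 := by
      intro z hz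
      apply ext_not_mem
      intro h
      obtain ⟨h1, h2⟩ := mem_kerS.1 h
      have h3 : mu (l := l) ht hη z = 1 := h2
      rw [hz] at h3
      exact neg_one_ne h3
    rcases hη x with hx | hx
    · have hat : aa η l t (t⁻¹ * x * t) = bb η l t x := by
        rw [aa_pos (hηt.trans hx), bb_pos hx]
      rw [ext1 (t := t) χ x hx, ext1 (t := t) χ _ (hηt.trans hx), hχt, hat]
      rcases mu_cases hl ht hη x with hm | hm
      · rw [ext2 hl ht hη χ x hm, ext2 hl ht hη χ _ (hμs.trans hm), hχs, conj_s_pos hl hs hx,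
          aa_eq_bb hl ht hη hm]
      · rw [hμn x hm, hμn _ (hμs.trans hm), add_zero]
        have h5 : bb η l t x = -aa η l t x := by
          have h6 := hm
          rw [mu_apply] at h6
          have h7 := aa_sq (t := t) hl x
          have h8 : aa η l t x * bb η l t x = aa η l t x * -aa η l t x := by
            rw [h6, mul_neg, h7]
          exact mul_left_cancel h8
        rw [h5, Units.val_neg]
        ring
    · rw [ext1' χ x hx, ext1' χ _ (hηt.trans hx), add_zero]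
      rcases mu_cases hl ht hη x with hm | hm
      · rw [ext2 hl ht hη χ x hm, ext2 hl ht hη χ _ (hμs.trans hm), hχs,
          conj_s hl ht hη hs hs2 hx, Units.val_neg]
        ring
      · rw [hμn x hm, hμn _ (hμs.trans hm), add_zero]
  · have h1 : (t : Q)⁻¹ * y * t ∉ K := by
      intro h
      apply hy
      have := K.mul_mem (K.mul_mem t.2 h) (K.inv_mem t.2)
      rwa [show (t : Q) * ((t : Q)⁻¹ * y * t) * (t : Q)⁻¹ = y by group] at this
    have h2 : (s : Q)⁻¹ * y * s ∉ K := by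
      intro h
      apply hy
      have := K.mul_mem (K.mul_mem s.2 h) (K.inv_mem s.2)
      rwa [show (s : Q) * ((s : Q)⁻¹ * y * s) * (s : Q)⁻¹ = y by group] at this
    rw [ext1'' χ y hy, ext1'' χ _ h1, ext_not_mem _ _ (fun h => hy (kerS_le _ _ h)),
      ext_not_mem _ _ (fun h => h2 (kerS_le _ _ h))]

theorem sum_conj [Fintype Q] (F : Q → ℂ) (g t : Q) :
    ∑ x : Q, F (x⁻¹ * g * x) = ∑ x : Q, F (t⁻¹ * (x⁻¹ * g * x) * t) := by
  rw [← Equiv.sum_comp (Equiv.mulRight t) (fun x => F (x⁻¹ * g * x))]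
  refine Finset.sum_congr rfl fun x _ => ?_
  congr 1
  simp only [Equiv.coe_mulRight, mul_inv_rev, mul_assoc]

end

theorem t_KLEIN : S_KLEIN := by
  classical
  intro Q _ _ K η hη2 l hl t ht ht1 hs
  have := Fintype.ofFinite Q
  have hη : ∀ x, η x = 1 ∨ η x = -1 := by
    intro x
    refine unit_cases ?_
    exact congrArg (fun f : K →* ℂˣ => f x) hη2
  have hηt : η ⟨t, ht⟩ = -1 := (hη _).resolve_left ht1
  have hLu : ∀ v, (hv : v ∈ K) → η ⟨v, hv⟩ = 1 → ext (kerS K η) l v = (Lu η l ⟨v, hv⟩ : ℂ) := by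
    intro v hv h
    rw [ext_mem _ _ (mem_kerS.2 ⟨hv, h⟩), Lu_of h]
  -- the two conjugates of `v` have the same value
  have hconj : ∀ v : K, η v = 1 →
      Lu η l (⟨t, ht⟩ * v * (⟨t, ht⟩ : K)⁻¹) = Lu η l ((⟨t, ht⟩ : K)⁻¹ * v * ⟨t, ht⟩) := by
    intro v hv
    set τ : K := ⟨t, ht⟩ with hτ
    have h1 : η (τ * τ) = 1 := by rw [map_mul, hηt]; simp
    have h1' : η (τ * τ)⁻¹ = 1 := by rw [map_inv, h1, inv_one]
    have h2 : η (τ⁻¹ * v * τ) = 1 := by rw [map_mul, map_mul, map_inv, hv, hηt]; simp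
    have h3 : η ((τ * τ) * (τ⁻¹ * v * τ)) = 1 := by rw [map_mul, h1, h2, one_mul]
    rw [show τ * v * τ⁻¹ = ((τ * τ) * (τ⁻¹ * v * τ)) * (τ * τ)⁻¹ by group, Lu_mul h3 h1',
      Lu_mul h1 h2, Lu_inv hl h1]
    calc Lu η l (τ * τ) * Lu η l (τ⁻¹ * v * τ) * Lu η l (τ * τ)
        = (Lu η l (τ * τ) * Lu η l (τ * τ)) * Lu η l (τ⁻¹ * v * τ) := by ac_rfl
      _ = Lu η l (τ⁻¹ * v * τ) := by rw [Lu_sq hl, one_mul]
  have hprod : ∀ v : K, η v = 1 → (mu (l := l) hηt hη v : ℂ) =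
      ext (kerS K η) l v * ext (kerS K η) l (t * v * t⁻¹) := by
    intro v hv
    have h2 : η (⟨t, ht⟩ * v * (⟨t, ht⟩ : K)⁻¹) = 1 := by
      rw [map_mul, map_mul, map_inv, hv, hηt]; simp
    rw [mu_apply, aa_pos hv, bb_pos hv, ← hconj v hv, Units.val_mul, hLu v v.2 hv]
    congr 1
    exact (hLu _ (K.mul_mem (K.mul_mem ht v.2) (K.inv_mem ht)) h2).symm
  obtain ⟨s, hsV, hs2⟩ := hs
  obtain ⟨hsK, hsη⟩ := mem_kerS.1 hsV
  have hμs : mu (l := l) hηt hη ⟨s, hsK⟩ = -1 := by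
    refine (mu_cases hl hηt hη _).resolve_left fun h => hs2 ?_
    have h1 := hprod ⟨s, hsK⟩ hsη
    rw [h, Units.val_one] at h1
    have h3 : ext (kerS K η) l s * ext (kerS K η) l s = 1 := by
      rw [hLu s hsK hsη, ← Units.val_mul, Lu_sq hl, Units.val_one]
    have h4 : ext (kerS K η) l s ≠ 0 := by
      intro h0
      rw [h0, zero_mul] at h3
      exact zero_ne_one h3
    exact mul_left_cancel₀ h4 (h3.trans h1)
  refine ⟨mu (l := l) hηt hη, ?_, ?_, l2 hl hηt hη, ?_, ?_, ?_⟩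
  · refine MonoidHom.ext fun x => ?_
    rw [MonoidHom.pow_apply, pow_two, mu_apply, mul_mul_mul_comm, aa_sq hl, bb_sq hl, one_mul]
    rfl
  · intro v hv
    obtain ⟨hvK, hvη⟩ := mem_kerS.1 hv
    rw [ext_mem _ _ hvK]
    exact hprod ⟨v, hvK⟩ hvη
  · refine MonoidHom.ext fun x => ?_
    rw [MonoidHom.pow_apply, pow_two]
    exact aa_sq hl _
  · intro x hx1 hx2
    obtain ⟨h1, h2⟩ := mem_kerS.1 hx1
    rw [ext_mem _ _ hx2, hLu x h1 h2]
    change ((aa η l ⟨t, ht⟩ ⟨x, h1⟩ : ℂˣ) : ℂ) = _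
    rw [aa_pos h2]
  · intro χ
    have hc1 := card_kerS K η hη2 (x₀ := ⟨t, ht⟩) ht1
    have hμ2 : (mu (l := l) hηt hη) ^ 2 = 1 := by
      refine MonoidHom.ext fun x => ?_
      rw [MonoidHom.pow_apply, pow_two, mu_apply, mul_mul_mul_comm, aa_sq hl, bb_sq hl, one_mul]
      rfl
    have hc2 := card_kerS K (mu (l := l) hηt hη) hμ2 (x₀ := ⟨s, hsK⟩)
      (by rw [hμs]; exact neg_one_ne)
    have hcc : Nat.card (kerS K η) = Nat.card (kerS K (mu (l := l) hηt hη)) := by omega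
    funext g
    unfold ind
    rw [avg_eq, avg_eq, hcc]
    congr 1
    have h1 := sum_conj (ext (kerS K η) (resS K η χ * l)) g t
    have h2 := sum_conj (ext (kerS K (mu (l := l) hηt hη)) (resS K _ χ * l2 hl hηt hη)) g s
    have h3 : ∑ x : Q, (ext (kerS K η) (resS K η χ * l) (x⁻¹ * g * x) +
        ext (kerS K η) (resS K η χ * l) (t⁻¹ * (x⁻¹ * g * x) * t)) =
        ∑ x : Q, (ext (kerS K (mu (l := l) hηt hη)) (resS K _ χ * l2 hl hηt hη) (x⁻¹ * g * x) +
        ext (kerS K (mu (l := l) hηt hη)) (resS K _ χ * l2 hl hηt hη)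
          (s⁻¹ * (x⁻¹ * g * x) * s)) :=
      Finset.sum_congr rfl fun x _ => point hl hηt hη hsη hμs χ _
    rw [Finset.sum_add_distrib, Finset.sum_add_distrib, ← h1, ← h2] at h3
    linear_combination h3 / 2

end Pool.Agent.Y38.SQ
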